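import Mathlib
import Pool.Agent.Helper7.E2.Case2

/-!
# E-T (MP_12a1af_nt), phase 2: top theorem with lists, the case `i' ≤ i - 2`
-/

set_option autoImplicit false

open Finset

namespace Pool.Agent.Helper7.E2

open Pool.Agent.ETS (Hash pairs mem_pairs)
open Pool.Agent.E2

variable {G : Geo}

/-- the property (PH) for a pair of different scales, all cases -/
lemma ph_pair (hG : G.Ok) {D : ℕ → Dt} {K K' : ℕ} (hn : G.Near K K') (hPH : PH G D K)
    (hPH' : PH G D K') (hne : K' ≠ K) (hT : G.isT K ∨ G.isT K') {L : Finset (ℕ × ℕ)}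
    (hL : L ∈ G.LF K K') (x : ℕ) :
    (by classical exact (L.filter (fun p => ∃ ω ∈ G.Sd (G.lO K),
      (ω + (D K).H p.1 + (D K').H p.2) % 2 ^ G.lO K = x % 2 ^ G.lO K)).card) < G.b K := by
  classical
  by_cases h1 : G.isT K
  · by_cases h2 : G.isT K'
    · exact hPH.two K' hn h1 h2 hne L hL x
    · have hz := hPH'.zero h2
      unfold Geo.LF at hL
      rw [if_pos h1, if_neg h2, mem_image] at hL
      obtain ⟨Q, hQ, rfl⟩ := hL
      refine lt_of_le_of_lt ?_ (hPH.own h1 Q hQ x)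
      refine card_le_card_of_injOn Prod.fst ?_ ?_
      · intro p hp
        rw [mem_coe, mem_filter, mem_product] at hp
        rw [mem_coe, mem_filter]
        obtain ⟨⟨p1, _⟩, ω, hω, h3⟩ := hp
        refine ⟨p1, ω, hω, ?_⟩
        rw [hz, add_zero] at h3
        exact h3
      · intro p hp p' hp' e
        rw [mem_coe, mem_filter, mem_product, mem_singleton] at hp hp'
        exact Prod.ext e (hp.1.2.trans hp'.1.2.symm)
  · have h2 : G.isT K' := hT.resolve_left h1
    have hz := hPH.zero h1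
    have hlO := hG.lO K K' hn hT
    unfold Geo.LF at hL
    rw [if_neg h1, if_pos h2, mem_image] at hL
    obtain ⟨Q, hQ, rfl⟩ := hL
    refine lt_of_lt_of_le ?_ (hG.b_mono hn.2.1)
    refine lt_of_le_of_lt ?_ (hPH'.own h2 Q hQ x)
    refine card_le_card_of_injOn Prod.snd ?_ ?_
    · intro p hp
      rw [mem_coe, mem_filter, mem_product] at hp
      rw [mem_coe, mem_filter]
      obtain ⟨⟨_, p1⟩, ω, hω, h3⟩ := hp
      rw [hlO] at hω h3
      refine ⟨p1, ω, hω, ?_⟩
      rw [hz, add_zero] at h3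
      exact h3
    · intro p hp p' hp' e
      rw [mem_coe, mem_filter, mem_product, mem_singleton] at hp hp'
      exact Prod.ext (hp.1.1.trans hp'.1.1.symm) e

/-- number of elements of `Lam` over one `ω` -/
lemma card_lam_om (hG : G.Ok) {D : ℕ → Dt} {K K' : ℕ} (hn : G.Near K K') (hPH : PH G D K)
    (hPH' : PH G D K') (hne : K' ≠ K) (hT : G.isT K ∨ G.isT K') {L : Finset (ℕ × ℕ)}
    (hL : L ∈ G.LF K K') (μ ω : ℕ) :
    ((Lam G D K K' L μ).filter (fun a => a.2.1 = ω)).card < G.b K := by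
  classical
  have hK : G.K0 ≤ K := hn.1.trans hn.2.1
  have hsd := hG.sdO K hK
  refine lt_of_le_of_lt ?_ (ph_pair hG hn hPH hPH' hne hT hL (μ + (2 ^ G.lO K - 1) * ω))
  refine card_le_card_of_injOn (fun a => a.1) ?_ ?_
  · intro a ha
    rw [mem_coe, mem_filter, Lam, mem_filter, mem_product, mem_product] at ha
    obtain ⟨⟨⟨h1, h2, h3⟩, h4⟩, h5⟩ := ha
    rw [mem_coe, mem_filter]
    refine ⟨h1, a.2.2, h3, ?_⟩
    have h6 : (μ + (2 ^ G.lO K - 1) * ω) + ω = μ + 2 ^ G.lO K * ω := by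
      have : 1 ≤ 2 ^ G.lO K := Nat.one_le_two_pow
      obtain ⟨m, hm⟩ := Nat.exists_eq_add_of_le this
      rw [hm, Nat.add_sub_cancel_left]
      ring
    refine Nat.ModEq.add_right_cancel' ω ?_
    show (a.2.2 + (D K).H a.1.1 + (D K').H a.1.2 + ω) % 2 ^ G.lO K =
      (μ + (2 ^ G.lO K - 1) * ω + ω) % 2 ^ G.lO K
    rw [h6, Nat.add_mul_mod_self_left, ← h4, h5]
    congr 1
    ring
  · intro a ha a' ha' e
    rw [mem_coe, mem_filter, Lam, mem_filter, mem_product, mem_product] at ha ha'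
    obtain ⟨⟨⟨_, _, h3⟩, h4⟩, h5⟩ := ha
    obtain ⟨⟨⟨_, _, k3⟩, k4⟩, k5⟩ := ha'
    simp only at e
    have e2 : a.2.1 = a'.2.1 := h5.trans k5.symm
    have e3 : a.2.2 = a'.2.2 := by
      have q := h4.trans k4.symm
      rw [e, e2] at q
      have q1 : a.2.2 ≡ a'.2.2 [MOD 2 ^ G.lO K] := by
        refine Nat.ModEq.add_left_cancel' (a'.2.1 + (D K).H a'.1.1 + (D K').H a'.1.2) ?_
        show (_ + _) % _ = (_ + _) % _
        convert q using 2 <;> ring
      exact q1.eq_of_lt_of_lt (hsd.lt _ h3) (hsd.lt _ k3)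
    exact Prod.ext e (Prod.ext e2 e3)

open Classical in
/-- a set of elements of `Lam` whose first `ω` is in `W` has at most `b * W.card` elements -/
lemma card_lam_le (hG : G.Ok) {D : ℕ → Dt} {K K' : ℕ} (hn : G.Near K K') (hPH : PH G D K)
    (hPH' : PH G D K') (hne : K' ≠ K) (hT : G.isT K ∨ G.isT K') {L : Finset (ℕ × ℕ)}
    (hL : L ∈ G.LF K K') (μ : ℕ) (W : Finset ℕ) :
    ((Lam G D K K' L μ).filter (fun a => a.2.1 ∈ W)).card ≤ G.b K * W.card := by
  have hsub : (Lam G D K K' L μ).filter (fun a => a.2.1 ∈ W) ⊆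
      W.biUnion (fun ω => (Lam G D K K' L μ).filter (fun a => a.2.1 = ω)) := by
    intro a ha
    rw [mem_filter] at ha
    rw [mem_biUnion]
    exact ⟨a.2.1, ha.2, by rw [mem_filter]; exact ⟨ha.1, rfl⟩⟩
  refine (card_le_card hsub).trans (card_biUnion_le.trans ?_)
  calc ∑ ω ∈ W, ((Lam G D K K' L μ).filter (fun a => a.2.1 = ω)).card
      ≤ ∑ ω ∈ W, G.b K := sum_le_sum (fun ω _ => (card_lam_om hG hn hPH hPH' hne hT hL μ ω).le)
    _ = G.b K * W.card := by rw [sum_const, smul_eq_mul, mul_comm]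

/-- **top theorem with lists**, the case `i' ≤ i - 2` -/
theorem top_list2 (hG : G.Ok) {D : ℕ → Dt}
    (hD : ∀ K, G.K0 ≤ K → PH G D K ∧ PS G D K ∧ PT G D K) {K K' : ℕ} (hn : G.Near K K')
    (hT : G.isT K ∨ G.isT K') {n : ℕ} (hq : G.q K = G.nx^[n + 2] (G.q K')) {L : Finset (ℕ × ℕ)}
    (hL : L ∈ G.LF K K') (μ ν : ℕ) (f : (ℕ × ℕ) × (ℕ × ℕ) → ℕ)
    (hf : ∀ a ∈ Lam G D K K' L μ, ∃ h h' : Hash,
      (∀ y ∈ Vs (cl G (G.q K') (n + 2)), nexts (cl G (G.q K') (n + 2)) h y [] =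
        (D K).S a.2.1) ∧ h' [] = (D K').S a.2.2 ∧
      f a ≤ cnt (cl G (G.q K') (n + 2) ++ [zn G D K]) [zn G D K'] h h' ν) :
    ∑ a ∈ Lam G D K K' L μ, f a ≤ 48 * G.A K * G.b K ^ 3 := by
  classical
  have hK : G.K0 ≤ K := hn.1.trans hn.2.1
  obtain ⟨hPH, hPS, hPT⟩ := hD K hK
  obtain ⟨hPH', hPS', hPT'⟩ := hD K' hn.1
  -- `K' < w K`
  have hKw : K' < G.w K := by
    have hqq : G.q K = G.nx^[n] (G.nx (G.w K')) := by
      rw [hq, Function.iterate_succ_apply, Function.iterate_succ_apply]; rfl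
    have e1 : G.w K = G.nx^[n] (G.nx (G.nx (G.w K'))) := by
      show G.nx (G.q K) = _
      rw [hqq, ← Function.iterate_succ_apply' G.nx n, Function.iterate_succ_apply]
    rw [e1]
    exact lt_of_lt_of_le (hG.hi K' hn.1) (le_iter n _)
  have hne : K' ≠ K := by have := q_le hG hK; omega
  set R := 2 ^ G.ρ K with hR
  have hR0 : 0 < R := by positivity
  -- the survivors
  let TS : ℕ → Finset ℕ := fun e => (D K).T.filter (fun t => ∃ a ∈ Lam G D K K' L μ,
    (t + Sh G D K a.2.1) % R = (ν / 2 ^ G.w K + (R - 1) * e) % R)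
  let OM : ℕ → ℕ → Finset ℕ := fun e t => (G.Sd (G.lO K)).filter (fun ω =>
    (∃ a ∈ Lam G D K K' L μ, a.2.1 = ω) ∧
      Sh G D K ω % R = (ν / 2 ^ G.w K + (R - 1) * (e + t)) % R)
  let W : Finset ℕ := (range 3).biUnion (fun e => (TS e).biUnion (fun t => OM e t))
  have hmod : ∀ x e : ℕ, (x + (R - 1) * e) + e ≡ x [MOD R] := by
    intro x e
    have h1 : (x + (R - 1) * e) + e = x + R * e := by
      obtain ⟨m, hm⟩ := Nat.exists_eq_add_of_le (show 1 ≤ R from hR0)
      rw [hm, Nat.add_sub_cancel_left]; ring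
    rw [h1]
    show (x + R * e) % R = x % R
    rw [Nat.add_mul_mod_self_left]
  have hW : W.card ≤ 3 * (G.b K * G.b K) := by
    calc W.card ≤ ∑ e ∈ range 3, ((TS e).biUnion (fun t => OM e t)).card := card_biUnion_le
      _ ≤ ∑ e ∈ range 3, ∑ t ∈ TS e, (OM e t).card :=
        sum_le_sum (fun e _ => card_biUnion_le)
      _ ≤ ∑ e ∈ range 3, ∑ t ∈ TS e, G.b K := by
        refine sum_le_sum (fun e _ => sum_le_sum (fun t _ => ?_))
        exact (hPS.s2 K' hn hT hKw L hL μ _).le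
      _ = ∑ e ∈ range 3, (TS e).card * G.b K := by
        refine sum_congr rfl (fun e _ => ?_)
        rw [sum_const, smul_eq_mul]
      _ ≤ ∑ e ∈ range 3, G.b K * G.b K := by
        refine sum_le_sum (fun e _ => Nat.mul_le_mul_right _ ?_)
        exact (hPT.t2 K' hn hT hKw L hL μ _).le
      _ = 3 * (G.b K * G.b K) := by rw [sum_const, card_range, smul_eq_mul]
  -- elements with `f a ≠ 0` are survivors
  have hsurv : ∀ a ∈ Lam G D K K' L μ, f a ≠ 0 → a.2.1 ∈ W := by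
    intro a ha hfa
    obtain ⟨h, h', hs, hs', hle⟩ := hf a ha
    obtain ⟨_, hsv⟩ := case2_surv hG (D := D) hn hq h h' ((D K).S a.2.1) ν hs
    obtain ⟨e, he, t, ht, het⟩ := hsv (by omega)
    have ha2 : a.2.1 ∈ G.Sd (G.lO K) := by
      have := ha
      rw [Lam, mem_filter, mem_product, mem_product] at this
      exact this.1.2.1
    have hSh : Sh G D K a.2.1 = (D K).S a.2.1 / 2 ^ G.l K := rfl
    rw [← hSh] at het
    rw [mem_biUnion]
    refine ⟨e, by rw [mem_range]; exact he, ?_⟩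
    rw [mem_biUnion]
    refine ⟨t, ?_, ?_⟩
    · rw [mem_filter]
      refine ⟨ht, a, ha, ?_⟩
      refine Nat.ModEq.add_right_cancel' e ?_
      refine Nat.ModEq.trans ?_ (hmod _ _).symm
      exact het
    · rw [mem_filter]
      refine ⟨ha2, ⟨a, ha, rfl⟩, ?_⟩
      refine Nat.ModEq.add_right_cancel' (e + t) ?_
      refine Nat.ModEq.trans ?_ (hmod _ _).symm
      show (Sh G D K a.2.1 + (e + t)) % R = _ % R
      rw [show Sh G D K a.2.1 + (e + t) = t + Sh G D K a.2.1 + e by ring]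
      exact het
  have hsplit : ∑ a ∈ Lam G D K K' L μ, f a =
      ∑ a ∈ (Lam G D K K' L μ).filter (fun a => a.2.1 ∈ W), f a := by
    rw [sum_filter]
    refine sum_congr rfl (fun a ha => ?_)
    split_ifs with h
    · rfl
    · by_contra hne0
      exact h (hsurv a ha hne0)
  rw [hsplit]
  calc ∑ a ∈ (Lam G D K K' L μ).filter (fun a => a.2.1 ∈ W), f a
      ≤ ∑ a ∈ (Lam G D K K' L μ).filter (fun a => a.2.1 ∈ W), 16 * G.A K := by
        refine sum_le_sum (fun a ha => ?_)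
        rw [mem_filter] at ha
        obtain ⟨h, h', hs, hs', hle⟩ := hf a ha.1
        exact hle.trans (case2_card hG hn hPT hPT' hq h h' ν)
    _ = ((Lam G D K K' L μ).filter (fun a => a.2.1 ∈ W)).card * (16 * G.A K) := by
        rw [sum_const, smul_eq_mul]
    _ ≤ (G.b K * (3 * (G.b K * G.b K))) * (16 * G.A K) := by
        refine Nat.mul_le_mul_right _ ?_
        exact (card_lam_le hG hn hPH hPH' hne hT hL μ W).trans (Nat.mul_le_mul_left _ hW)
    _ = 48 * G.A K * G.b K ^ 3 := by ring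

end Pool.Agent.Helper7.E2
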