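import Mathlib
import Pool.Agent.Helper7.E2.Case1

/-!
# E-T (MP_12a1af_nt), phase 2: top theorems for `q K = w K'`
-/

set_option autoImplicit false

open Finset

namespace Pool.Agent.Helper7.E2

open Pool.Agent.ETS (Hash pairs mem_pairs)
open Pool.Agent.E2

variable {G : Geo}

/-- sizes in the case `i' = i - 1` -/
lemma sizes1 (hG : G.Ok) {K K' : ℕ} (hn : G.Near K K') (hq : G.q K = G.w K') :
    G.q K + G.l K + 8 * G.d K ≤ K ∧ G.q K' + 8 * G.d K' ≤ G.q K ∧ 100 ≤ G.d K' ∧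
      G.q K ≤ K' ∧ G.d K' ≤ G.d K ∧ G.l K = G.ln (G.w K') ∧ G.ρ K' = K' - G.q K := by
  obtain ⟨hK', hle, hg⟩ := hn
  have hK : G.K0 ≤ K := hK'.trans hle
  have h1 := hG.lo K hK
  have h2 := hG.ln_low K (G.w K) hK (le_nx _)
  have h3 : G.nx (G.w K) = G.q K + G.l K + G.ln (G.w K) := rfl
  have h4 := hG.ln_low K' (G.q K') hK' le_rfl
  have h5 : G.w K' = G.q K' + G.ln (G.q K') := rfl
  have h6 := hG.d_pos K' hK'
  have h7 := q_le hG hK'
  have h8 := hG.d_mono hle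
  refine ⟨by omega, by omega, h6, by omega, h8, ?_, ?_⟩
  · show G.ln (G.q K) = _
    rw [hq]
  · show K' - G.w K' = _
    rw [hq]

open Classical in
/-- for given `t` there are few `t'` -/
lemma tp_count (hG : G.Ok) {D : ℕ → Dt} {K K' : ℕ} (hn : G.Near K K') (hPT' : PT G D K')
    (hq : G.q K = G.w K') (β c : ℕ) :
    ((D K').T.filter (fun t' => ∃ u ∈ G.Sd (G.l K),
      (u + (t' + β) % 2 ^ G.ρ K') % 2 ^ (K - G.q K) = c % 2 ^ (K - G.q K))).card ≤
      (if K < K' + 4 * G.d K then 2 * G.b K else 4 * G.A K) := by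
  obtain ⟨z1, z2, z3, z4, z5, z6, z7⟩ := sizes1 hG hn hq
  obtain ⟨hK', hle, hg⟩ := hn
  have hK : G.K0 ≤ K := hK'.trans hle
  set M := 2 ^ (K - G.q K) with hM
  have hM0 : 0 < M := by positivity
  let Q : ℕ → Finset ℕ := fun y => (D K').T.filter (fun t' => ∃ u ∈ G.Sd (G.ln (G.w K')),
    u + (t' + β) % 2 ^ G.ρ K' = y)
  have hsub : (D K').T.filter (fun t' => ∃ u ∈ G.Sd (G.l K),
      (u + (t' + β) % 2 ^ G.ρ K') % M = c % M) ⊆ Q (c % M) ∪ Q (c % M + M) := by
    intro t ht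
    rw [mem_filter] at ht
    obtain ⟨htT, u, hu, he⟩ := ht
    have hu1 : u < 2 ^ G.l K := (hG.sd K (G.q K) hK le_rfl).lt _ hu
    have hu2 : 2 ^ G.l K ≤ M := Nat.pow_le_pow_right (by norm_num) (by omega)
    have hr1 : (t + β) % 2 ^ G.ρ K' < 2 ^ G.ρ K' := Nat.mod_lt _ (by positivity)
    have hr2 : 2 ^ G.ρ K' ≤ M := Nat.pow_le_pow_right (by norm_num) (by omega)
    set X := u + (t + β) % 2 ^ G.ρ K' with hX
    have hX2 : X < 2 * M := by omega
    have hcase : X = c % M ∨ X = c % M + M := by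
      rcases Nat.lt_or_ge X M with h | h
      · left
        rw [← he, Nat.mod_eq_of_lt h]
      · right
        have h3 : X % M = X - M := by
          rw [Nat.mod_eq_sub_mod h, Nat.mod_eq_of_lt (by omega)]
        omega
    rw [z6] at hu
    rw [mem_union]
    rcases hcase with h | h
    · left; rw [mem_filter]; exact ⟨htT, u, hu, h⟩
    · right; rw [mem_filter]; exact ⟨htT, u, hu, h⟩
  refine (card_le_card hsub).trans ((card_union_le _ _).trans ?_)
  split_ifs with hD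
  · have h1 : G.ln (G.w K') + 4 * G.d K' ≤ G.ρ K' := by rw [← z6, z7]; omega
    have h2 := hPT'.td' h1 β (c % M)
    have h3 := hPT'.td' h1 β (c % M + M)
    have h4 := hG.b_mono hle
    have e2 : (Q (c % M)).card < G.b K' := h2
    have e3 : (Q (c % M + M)).card < G.b K' := h3
    omega
  · have h2 := hPT'.td β (c % M)
    have h3 := hPT'.td β (c % M + M)
    have h4 := hG.A_mono hle
    have e2 : (Q (c % M)).card ≤ 2 * G.A K' := h2
    have e3 : (Q (c % M + M)).card ≤ 2 * G.A K' := h3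
    omega

open Classical in
/-- the elements of the second window set for given `t` -/
noncomputable def TP (G : Geo) (D : ℕ → Dt) (K K' s β n t : ℕ) : Finset ℕ :=
  (D K').T.filter (fun t' => ∃ u ∈ G.Sd (G.l K),
    (u + 2 ^ G.l K * t + s + (t' + β) % 2 ^ G.ρ K') % 2 ^ (K - G.q K) = n % 2 ^ (K - G.q K))

lemma card_TP (hG : G.Ok) {D : ℕ → Dt} {K K' : ℕ} (hn : G.Near K K') (hPT' : PT G D K')
    (hq : G.q K = G.w K') (s β n t : ℕ) :
    (TP G D K K' s β n t).card ≤ (if K < K' + 4 * G.d K then 2 * G.b K else 4 * G.A K) := by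
  classical
  refine le_trans (card_le_card ?_) (tp_count hG hn hPT' hq β
    (n + (2 ^ (K - G.q K) - 1) * (2 ^ G.l K * t + s)))
  intro t' ht'
  rw [TP, mem_filter] at ht'
  rw [mem_filter]
  obtain ⟨h1, u, hu, he⟩ := ht'
  refine ⟨h1, u, hu, ?_⟩
  refine modEq_pred (by positivity) ?_
  show (u + (t' + β) % 2 ^ G.ρ K' + (2 ^ G.l K * t + s)) % _ = n % _
  rw [← he]
  congr 1
  ring

lemma card_FF_eq {D : ℕ → Dt} (K K' s β n : ℕ) :
    (FF G D K K' s β n).card = ∑ t ∈ (D K).T, (TP G D K K' s β n t).card := by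
  classical
  rw [← card_sigma]
  refine card_bij (fun p _ => (⟨p.1, p.2⟩ : (_ : ℕ) × ℕ)) ?_ ?_ ?_
  · intro p hp
    rw [FF, mem_filter, mem_product] at hp
    rw [mem_sigma, TP, mem_filter]
    exact ⟨hp.1.1, hp.1.2, hp.2⟩
  · intro p _ p' _ e
    simp only [Sigma.mk.injEq, heq_eq_eq] at e
    exact Prod.ext e.1 e.2
  · intro x hx
    rw [mem_sigma, TP, mem_filter] at hx
    refine ⟨(x.1, x.2), ?_, rfl⟩
    rw [FF, mem_filter, mem_product]
    exact ⟨⟨hx.1, hx.2.1⟩, hx.2.2⟩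

/-- one pair of facing cells, arbitrary shifts -/
lemma card_FF (hG : G.Ok) {D : ℕ → Dt} {K K' : ℕ} (hn : G.Near K K') (hPT : PT G D K)
    (hPT' : PT G D K') (hq : G.q K = G.w K') (s β n : ℕ) :
    (FF G D K K' s β n).card ≤ 200 * G.A K * G.b K := by
  classical
  have hK : G.K0 ≤ K := hn.1.trans hn.2.1
  have hM0 : 0 < 2 ^ (K - G.q K) := by positivity
  rw [card_FF_eq]
  have h1 := hPT.t01 K' hn hq β (n + (2 ^ (K - G.q K) - 1) * s)
  set TS := (D K).T.filter (fun t => ∃ u ∈ G.Sd (G.l K), ∃ t' ∈ (D K').T,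
      (u + 2 ^ G.l K * t + (t' + β) % 2 ^ G.ρ K') % 2 ^ (K - G.q K) =
        (n + (2 ^ (K - G.q K) - 1) * s) % 2 ^ (K - G.q K)) with hTS
  have h2 : ∑ t ∈ (D K).T, (TP G D K K' s β n t).card =
      ∑ t ∈ TS, (TP G D K K' s β n t).card := by
    symm
    refine sum_subset (filter_subset _ _) ?_
    intro t ht hts
    rw [card_eq_zero, eq_empty_iff_forall_notMem]
    intro t' ht'
    apply hts
    rw [TP, mem_filter] at ht'
    obtain ⟨k1, u, hu, he⟩ := ht'
    rw [hTS, mem_filter]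
    refine ⟨ht, u, hu, t', k1, ?_⟩
    refine modEq_pred hM0 ?_
    show (u + 2 ^ G.l K * t + (t' + β) % 2 ^ G.ρ K' + s) % _ = n % _
    rw [← he]
    congr 1
    ring
  rw [h2]
  calc ∑ t ∈ TS, (TP G D K K' s β n t).card
      ≤ ∑ t ∈ TS, (if K < K' + 4 * G.d K then 2 * G.b K else 4 * G.A K) :=
        sum_le_sum (fun t _ => card_TP hG hn hPT' hq s β n t)
    _ = TS.card * (if K < K' + 4 * G.d K then 2 * G.b K else 4 * G.A K) := by
        rw [sum_const, smul_eq_mul]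
    _ ≤ (if K < K' + 4 * G.d K then 100 * G.A K else G.b K) *
        (if K < K' + 4 * G.d K then 2 * G.b K else 4 * G.A K) := Nat.mul_le_mul_right _ h1
    _ ≤ 200 * G.A K * G.b K := by
        split_ifs
        · exact le_of_eq (by ring)
        · have h3 : G.b K * (4 * G.A K) = 4 * (G.A K * G.b K) := by ring
          have h4 : 200 * G.A K * G.b K = 200 * (G.A K * G.b K) := by ring
          rw [h3, h4]
          exact Nat.mul_le_mul_right _ (by norm_num)

/-- **top theorem without lists** for `q K = w K'` -/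
theorem top_zero1 (hG : G.Ok) {D : ℕ → Dt}
    (hD : ∀ K, G.K0 ≤ K → PH G D K ∧ PS G D K ∧ PT G D K) {K K' : ℕ} (hn : G.Near K K')
    (hq : G.q K = G.w K') :
    NBt (cl G (G.q K') 1 ++ [zn G D K]) [zn G D K'] (1600 * G.A K * G.b K) := by
  intro h h' ν
  have hK : G.K0 ≤ K := hn.1.trans hn.2.1
  have hPT := (hD K hK).2.2
  have hPT' := (hD K' hn.1).2.2
  have hs : ∀ y ∈ Vs (cl G (G.q K') 1), nexts (cl G (G.q K') 1) h y [] = h [0] := by
    intro y hy
    obtain ⟨c0, rfl, _⟩ := mem_Vs_single.mp hy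
    rfl
  refine (case1_cnt hG hn hPT hq h h' (h [0]) ν hs).trans ?_
  calc _ ≤ ∑ q ∈ P0 G K' (h []) (h' []) ν, 200 * G.A K * G.b K :=
        sum_le_sum (fun q _ => card_FF hG hn hPT hPT' hq _ _ _)
    _ = (P0 G K' (h []) (h' []) ν).card * (200 * G.A K * G.b K) := by
        rw [sum_const, smul_eq_mul]
    _ ≤ 8 * (200 * G.A K * G.b K) := Nat.mul_le_mul_right _ (card_P0 hG hn.1 _ _ _)
    _ = 1600 * G.A K * G.b K := by ring

/-- the sum over `Lam` for fixed carries -/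
lemma sum_FF (hG : G.Ok) {D : ℕ → Dt}
    (hD : ∀ K, G.K0 ≤ K → PH G D K ∧ PS G D K ∧ PT G D K) {K K' : ℕ} (hn : G.Near K K')
    (hT : G.isT K ∨ G.isT K') (hq : G.q K = G.w K') {L : Finset (ℕ × ℕ)}
    (hL : L ∈ G.LF K K') (μ n ε : ℕ) (hε : ε < 2) :
    ∑ a ∈ Lam G D K K' L μ, (FF G D K K' ((D K).S a.2.1) (Sh G D K' a.2.2 + ε) n).card ≤
      2000 * G.A K * G.b K ^ 3 := by
  classical
  have hK : G.K0 ≤ K := hn.1.trans hn.2.1
  obtain ⟨hPH, hPS, hPT⟩ := hD K hK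
  obtain ⟨hPH', hPS', hPT'⟩ := hD K' hn.1
  obtain ⟨z1, z2, z3, z4, z5, z6, z7⟩ := sizes1 hG hn hq
  have hne : K' ≠ K := by rintro rfl; omega
  have hM0 : 0 < 2 ^ (K - G.q K) := by positivity
  have e1 : ∀ a : (ℕ × ℕ) × (ℕ × ℕ), (FF G D K K' ((D K).S a.2.1) (Sh G D K' a.2.2 + ε) n).card =
      ∑ t ∈ (D K).T, (TP G D K K' ((D K).S a.2.1) (Sh G D K' a.2.2 + ε) n t).card :=
    fun a => card_FF_eq _ _ _ _ _
  rw [sum_congr rfl (fun a _ => e1 a)]
  have h1 := hPT.t1 K' hn hT hq L hL μ n ε hε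
  set TS := (D K).T.filter (fun t => ∃ a ∈ Lam G D K K' L μ,
      ∃ u ∈ G.Sd (G.l K), ∃ t' ∈ (D K').T,
      (u + 2 ^ G.l K * t + (D K).S a.2.1 + (t' + Sh G D K' a.2.2 + ε) % 2 ^ G.ρ K') %
        2 ^ (K - G.q K) = n % 2 ^ (K - G.q K)) with hTS
  let OM : ℕ → Finset ℕ := fun t => (G.Sd (G.lO K)).filter (fun ω =>
    ∃ a ∈ Lam G D K K' L μ, a.2.1 = ω ∧
      ∃ u ∈ G.Sd (G.l K), ∃ t' ∈ (D K').T, (u + (D K).S ω +
        (t' + Sh G D K' a.2.2 + ε) % 2 ^ G.ρ K') % 2 ^ (K - G.q K) =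
        (n + (2 ^ (K - G.q K) - 1) * (2 ^ G.l K * t)) % 2 ^ (K - G.q K))
  have h2 : ∀ t, (OM t).card ≤ G.b K := fun t =>
    (hPS.s1 K' hn hT hq L hL μ (n + (2 ^ (K - G.q K) - 1) * (2 ^ G.l K * t)) ε hε).le
  have h3 := sum_two (Lam G D K K' L μ) (D K).T TS
    (fun a t => (TP G D K K' ((D K).S a.2.1) (Sh G D K' a.2.2 + ε) n t).card)
    (fun t => (Lam G D K K' L μ).filter (fun a => a.2.1 ∈ OM t))
    (τ := if K < K' + 4 * G.d K then 2 * G.b K else 4 * G.A K) (B := G.b K * G.b K) (by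
      intro a ha t ht h0
      obtain ⟨t', ht'⟩ := card_pos.mp (Nat.pos_of_ne_zero h0)
      rw [TP, mem_filter] at ht'
      obtain ⟨k1, u, hu, he⟩ := ht'
      have ha2 : a.2.1 ∈ G.Sd (G.lO K) := by
        have := ha
        rw [Lam, mem_filter, mem_product, mem_product] at this
        exact this.1.2.1
      constructor
      · rw [hTS, mem_filter]
        refine ⟨ht, a, ha, u, hu, t', k1, ?_⟩
        rw [← add_assoc] at he
        exact he
      · rw [mem_filter]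
        refine ⟨ha, ?_⟩
        rw [mem_filter]
        refine ⟨ha2, a, ha, rfl, u, hu, t', k1, ?_⟩
        refine modEq_pred hM0 ?_
        show (u + (D K).S a.2.1 + (t' + Sh G D K' a.2.2 + ε) % 2 ^ G.ρ K' + 2 ^ G.l K * t) % _ =
          n % _
        rw [← he, add_assoc t']
        congr 1
        ring)
    (fun a t => card_TP hG hn hPT' hq _ _ _ _)
    (fun t => (card_lam_le hG hn hPH hPH' hne hT hL μ (OM t)).trans
      (Nat.mul_le_mul_left _ (h2 t)))
  refine h3.trans ?_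
  calc TS.card * (G.b K * G.b K * (if K < K' + 4 * G.d K then 2 * G.b K else 4 * G.A K))
      ≤ (if K < K' + 4 * G.d K then 1000 * G.A K else G.b K) *
        (G.b K * G.b K * (if K < K' + 4 * G.d K then 2 * G.b K else 4 * G.A K)) :=
        Nat.mul_le_mul_right _ h1
    _ ≤ 2000 * G.A K * G.b K ^ 3 := by
        split_ifs
        · exact le_of_eq (by ring)
        · have h3 : G.b K * (G.b K * G.b K * (4 * G.A K)) = 4 * (G.A K * G.b K ^ 3) := by ring
          have h4 : 2000 * G.A K * G.b K ^ 3 = 2000 * (G.A K * G.b K ^ 3) := by ring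
          rw [h3, h4]
          exact Nat.mul_le_mul_right _ (by norm_num)

/-- **top theorem with lists** for `q K = w K'` -/
theorem top_list1 (hG : G.Ok) {D : ℕ → Dt}
    (hD : ∀ K, G.K0 ≤ K → PH G D K ∧ PS G D K ∧ PT G D K) {K K' : ℕ} (hn : G.Near K K')
    (hT : G.isT K ∨ G.isT K') (hq : G.q K = G.w K') {L : Finset (ℕ × ℕ)}
    (hL : L ∈ G.LF K K') (μ ν : ℕ) (f : (ℕ × ℕ) × (ℕ × ℕ) → ℕ)
    (hf : ∀ a ∈ Lam G D K K' L μ, ∃ h h' : Hash,
      (∀ y ∈ Vs (cl G (G.q K') 1), nexts (cl G (G.q K') 1) h y [] = (D K).S a.2.1) ∧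
      h' [] = (D K').S a.2.2 ∧
      f a ≤ cnt (cl G (G.q K') 1 ++ [zn G D K]) [zn G D K'] h h' ν) :
    ∑ a ∈ Lam G D K K' L μ, f a ≤ 10 ^ 6 * G.A K * G.b K ^ 3 := by
  classical
  have hK : G.K0 ≤ K := hn.1.trans hn.2.1
  have hPT := (hD K hK).2.2
  set l0 := G.ln (G.q K') with hl0
  set n1 := ν / 2 ^ G.q K' / 2 ^ l0 with hn1
  set M := 2 ^ (K - G.q K) with hM
  -- bound for one element
  have hone : ∀ a ∈ Lam G D K K' L μ, f a ≤ 8 * ∑ e ∈ range 2 ×ˢ range 2,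
      (FF G D K K' ((D K).S a.2.1) (Sh G D K' a.2.2 + e.1) (n1 + (M - 1) * e.2)).card := by
    intro a ha
    obtain ⟨h, h', hs, hs', hle⟩ := hf a ha
    refine hle.trans ((case1_cnt hG hn hPT hq h h' _ ν hs).trans ?_)
    calc _ ≤ ∑ q ∈ P0 G K' (h []) (h' []) ν, ∑ e ∈ range 2 ×ˢ range 2,
          (FF G D K K' ((D K).S a.2.1) (Sh G D K' a.2.2 + e.1) (n1 + (M - 1) * e.2)).card := by
          refine sum_le_sum (fun q hq0 => ?_)
          have hq2 : q.2 < 2 ^ l0 := by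
            rw [P0, mem_filter, mem_product] at hq0
            exact (hG.sd K' (G.q K') hn.1 le_rfl).lt _ hq0.1.2
          obtain ⟨ε, hε, hεe⟩ : ∃ ε < 2, (q.2 + h' []) / 2 ^ l0 = Sh G D K' a.2.2 + ε := by
            have hL0 : 0 < 2 ^ l0 := by positivity
            have hsh : Sh G D K' a.2.2 = h' [] / 2 ^ l0 := by rw [hs']; rfl
            rw [hsh]
            have h1 : (q.2 + h' []) / 2 ^ l0 < h' [] / 2 ^ l0 + 2 := by
              rw [Nat.div_lt_iff_lt_mul hL0]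
              have := Nat.lt_div_mul_add hL0 (a := h' [])
              calc q.2 + h' [] < 2 ^ l0 + (h' [] / 2 ^ l0 * 2 ^ l0 + 2 ^ l0) := by omega
                _ = (h' [] / 2 ^ l0 + 2) * 2 ^ l0 := by ring
            have h2 : h' [] / 2 ^ l0 ≤ (q.2 + h' []) / 2 ^ l0 :=
              Nat.div_le_div_right (Nat.le_add_left _ _)
            exact ⟨(q.2 + h' []) / 2 ^ l0 - h' [] / 2 ^ l0, by omega, by omega⟩
          rw [hεe]
          have hmem : (ε, kap G K' (h []) (h' []) q) ∈ range 2 ×ˢ range 2 := by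
            rw [mem_product, mem_range, mem_range]
            exact ⟨hε, kap_lt G K' _ _ q⟩
          exact single_le_sum (f := fun e : ℕ × ℕ => (FF G D K K' ((D K).S a.2.1)
            (Sh G D K' a.2.2 + e.1) (n1 + (M - 1) * e.2)).card) (fun _ _ => Nat.zero_le _) hmem
      _ = (P0 G K' (h []) (h' []) ν).card * _ := by rw [sum_const, smul_eq_mul]
      _ ≤ _ := Nat.mul_le_mul_right _ (card_P0 hG hn.1 _ _ _)
  calc ∑ a ∈ Lam G D K K' L μ, f a
      ≤ ∑ a ∈ Lam G D K K' L μ, 8 * ∑ e ∈ range 2 ×ˢ range 2,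
        (FF G D K K' ((D K).S a.2.1) (Sh G D K' a.2.2 + e.1) (n1 + (M - 1) * e.2)).card :=
        sum_le_sum hone
    _ = 8 * ∑ e ∈ range 2 ×ˢ range 2, ∑ a ∈ Lam G D K K' L μ,
        (FF G D K K' ((D K).S a.2.1) (Sh G D K' a.2.2 + e.1) (n1 + (M - 1) * e.2)).card := by
        rw [← mul_sum, sum_comm]
    _ ≤ 8 * ∑ e ∈ range 2 ×ˢ range 2, 2000 * G.A K * G.b K ^ 3 := by
        refine Nat.mul_le_mul_left _ (sum_le_sum (fun e he => ?_))
        rw [mem_product, mem_range, mem_range] at he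
        exact sum_FF hG hD hn hT hq hL μ _ e.1 he.1
    _ = 64000 * (G.A K * G.b K ^ 3) := by
        rw [sum_const, card_product, card_range, smul_eq_mul]
        ring
    _ ≤ 10 ^ 6 * G.A K * G.b K ^ 3 := by
        have h4 : 10 ^ 6 * G.A K * G.b K ^ 3 = 10 ^ 6 * (G.A K * G.b K ^ 3) := by ring
        rw [h4]
        exact Nat.mul_le_mul_right _ (by norm_num)

end Pool.Agent.Helper7.E2
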